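import Pool.Agent.P.MP_c4d261_al.Defs

/-! Restricted wreath products with arbitrary lamp groups and their iterates. -/

set_option autoImplicit false

namespace Pool.Agent.P.MP_c4d261_al

/-- The restricted wreath product `F ≀ H = (⨁_H F) ⋊ H`: the subgroup of the regular wreath
product `(H → F) ⋊ H` of Mathlib formed by the pairs `(c, h)` with `c` finitely supported. -/
def Wr (F H : Type) [Group F] [Group H] : Subgroup (F ≀ᵣ H) where
  carrier := {w | (Function.mulSupport w.left).Finite}
  one_mem' := by simp
  mul_mem' := fun {a b} ha hb => by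
    refine (ha.union (hb.preimage (f := fun x => a.right⁻¹ * x)
      (mul_right_injective _).injOn)).subset ?_
    exact Function.mulSupport_mul _ _
  inv_mem' := fun {a} ha => by
    refine (ha.preimage (f := fun x => a.right * x) (mul_right_injective _).injOn).subset ?_
    intro x hx
    simpa using hx

/-- The iterated wreath product `F₁ ≀ (F₂ ≀ ( ⋯ ≀ (F_n ≀ H)))` for the list `[F₁, …, F_n]`. -/
def iterWr (H : GrpCat.{0}) : List GrpCat.{0} → GrpCat.{0}
  | [] => H
  | F :: l => GrpCat.of (Wr F (iterWr H l))

end Pool.Agent.P.MP_c4d261_al
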