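import Pool.Agent.P.MP_c4d261_al.G.Iso
import Pool.Agent.P.MP_c4d261_al.Base

/-! A coarse embedding of a one-ended space with exact cocycles into a lamplighter space projects
to a coarse embedding into the base. -/

set_option autoImplicit false

open Finsupp

namespace Pool.Agent.P.MP_c4d261_al

variable {X Y Z L : Type}

/-- `E` changes only along edges in the ball of radius `D` about `g`. -/
def Cut {α : Type} (m : NMetric X) (E : X → α) (g : X) (D : ℕ) : Prop :=
  ∀ x y, m.d x y ≤ 1 → E x ≠ E y → m.d g x ≤ D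

/-- Uniformly one-ended. -/
def OneE (m : NMetric X) : Prop :=
  ∀ D, ∃ D', ∀ (E : X → ZMod 2) g, Cut m E g D → ∀ x y, D' < m.d g x → D' < m.d g y → E x = E y

/-- Coarse embedding. -/
def CE (m : NMetric X) (m' : NMetric Y) (f : X → Y) : Prop :=
  (∃ l, ∀ x y, m'.d (f x) (f y) ≤ l * m.d x y + l) ∧
    ∀ D, ∃ D', ∀ x y, m'.d (f x) (f y) ≤ D → m.d x y ≤ D'

theorem CE.comp {m : NMetric X} {m' : NMetric Y} {m'' : NMetric Z} {f : X → Y} {g : Y → Z}
    (hf : CE m m' f) (hg : CE m' m'' g) : CE m m'' fun x => g (f x) := by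
  obtain ⟨⟨l, h1⟩, h2⟩ := hf
  obtain ⟨⟨l', h3⟩, h4⟩ := hg
  refine ⟨⟨l' * l + l', fun x y => ?_⟩, fun D => ?_⟩
  · have a1 := h3 (f x) (f y)
    have a2 := Nat.mul_le_mul_left l' (h1 x y)
    nlinarith [Nat.zero_le (l' * m.d x y)]
  · obtain ⟨D', a1⟩ := h4 D
    obtain ⟨D'', a2⟩ := h2 D'
    exact ⟨D'', fun x y h => a2 x y (a1 _ _ h)⟩

theorem Coarse.ce {m : NMetric X} {m' : NMetric Y} (h : Coarse m m') : ∃ f, CE m m' f := by
  obtain ⟨f, g, l, h1, h2, h3, -⟩ := h
  refine ⟨f, ⟨l, h1⟩, fun D => ⟨l * D + 3 * l, fun x y h => ?_⟩⟩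
  have a1 := h2 (f x) (f y)
  have a2 := Nat.mul_le_mul_left l h
  have a3 := h3 x
  have a4 := h3 y
  have a5 := m.tri x (g (f x)) y
  have a6 := m.tri (g (f x)) (g (f y)) y
  rw [m.symm (g (f y)) y] at a6
  omega

theorem Lin.of_ce {m : NMetric X} {m' : NMetric Y} {f : X → Y} (hf : CE m m' f) {M : ℕ}
    (hM : Deg m M) (h : Lin m') : Lin m := by
  classical
  obtain ⟨⟨l, h1⟩, h2⟩ := hf
  obtain ⟨K, hK⟩ := h
  obtain ⟨D, h3⟩ := h2 0
  refine ⟨M ^ D * (K * (l + 1)), fun o n F hF => ?_⟩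
  have a1 := hK (f o) (l * n + l) (F.image f) fun y hy => by
    obtain ⟨x, hx, rfl⟩ := Finset.mem_image.1 hy
    have := Nat.mul_le_mul_left l (hF x hx)
    have := h1 o x
    omega
  have a2 := Finset.card_le_mul_card_image (f := f) F (M ^ D) fun y hy => by
    obtain ⟨x, -, rfl⟩ := Finset.mem_image.1 hy
    simpa using hM.cover D (F.filter fun z => f z = f x) {x} id fun z hz =>
      ⟨x, by simp, h3 _ _ (by rw [(Finset.mem_filter.1 hz).2, id, m'.refl])⟩
  refine a2.trans ?_
  rw [mul_assoc (M ^ D), mul_assoc K]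
  exact Nat.mul_le_mul_left _ (a1.trans (Nat.mul_le_mul_left _ (by nlinarith)))

theorem z2_eq_of_add {a b : ZMod 2} (h : a + b = 0) : a = b := by
  revert a b; decide

theorem CE.pos {A : Type} [AddCommGroup A] {mX : NMetric X} {mL : NMetric L} (Λ : IsLampA A mX mL)
    {M : ℕ} (hM : Deg mX M) {mZ : NMetric Z} (h1 : OneE mZ) {r : ℕ} (hr : 1 ≤ r)
    (hex : Exact mZ r) {f : Z → L} (hf : CE mZ mL f) : CE mZ mX fun z => Λ.pos (f z) := by
  classical
  obtain ⟨⟨l, hl⟩, hp⟩ := hf
  obtain ⟨R, hR⟩ : ∃ R, R = l * r + l := ⟨_, rfl⟩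
  have hfR : ∀ x y, mZ.d x y ≤ r → mL.d (f x) (f y) ≤ R := fun x y h => by
    have := hl x y
    have := Nat.mul_le_mul_left l h
    omega
  obtain ⟨D₂, hD₂⟩ := hp (M ^ (4 * R) * (2 * (4 * R) + 1) + 4 * R)
  obtain ⟨D₃, hD₃⟩ := h1 D₂
  have key : ∀ z z' p, R + (l * D₃ + l) < mX.d (Λ.pos (f z)) p →
      R + (l * D₃ + l) < mX.d (Λ.pos (f z')) p → Λ.col (f z') p = Λ.col (f z) p := by
    intro z z' p hz hz'
    let χ : L → ZMod 2 := fun y => if Λ.col y p = Λ.col (f z) p then 1 else 0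
    let κ : L → X →₀ A := fun y => (Λ.col y).filter fun s => 3 * R < mX.d p s
    let θ : (X →₀ A) → L → L → ZMod 2 := fun c x y => if κ x = c then χ x + χ y else 0
    have n1 : ∀ x y, mL.d x y ≤ R → χ x + χ y ≠ 0 → mX.d (Λ.pos x) p ≤ R := fun x y h e =>
      (Λ.near_of_ne x y p fun e' => e (by simp only [χ, e', z2_add_self])).trans h
    have c1 : ∀ c, Cocycle mL R (θ c) := by
      intro c x y w d1 d2 d3
      by_cases e : κ x = κ y
      · simp only [θ, ← e]
        split_ifs
        · linear_combination z2_add_self (χ y)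
        · simp
      · obtain ⟨s, hs⟩ : ∃ s, κ x s ≠ κ y s := by
          by_contra hc
          push Not at hc
          exact e (Finsupp.ext hc)
        simp only [κ, filter_apply] at hs
        have s1 : 3 * R < mX.d p s := by
          by_contra hc
          simp [hc] at hs
        have s2 := Λ.near_of_ne x y s fun e' => hs (by rw [e'])
        have s3 := mX.tri p (Λ.pos x) s
        have s4 := Λ.pos_lip x y
        have s5 := mX.tri (Λ.pos x) (Λ.pos y) p
        rw [mX.symm p (Λ.pos x)] at s3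
        have e1 : χ x + χ y = 0 := by
          by_contra hc
          have := n1 x y d1 hc
          omega
        have e2 : χ y + χ w = 0 := by
          by_contra hc
          have := n1 y w d2 hc
          omega
        have e3 : χ x + χ w = 0 := by
          by_contra hc
          have := n1 x w d3 hc
          omega
        simp only [θ, e1, e2, e3, ite_self, add_zero]
    choose E hE using fun c => hex _ ((c1 c).comp (m' := mZ) (r' := r) f hfR)
    have n2 : ∀ c x y, mZ.d x y ≤ 1 → E c x ≠ E c y →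
        κ (f x) = c ∧ mX.d (Λ.pos (f x)) p ≤ R := by
      intro c x y h e
      have a1 : θ c (f x) (f y) ≠ 0 := fun e' => e (z2_eq_of_add (by rw [← hE c x y (by omega), e']))
      by_cases a2 : κ (f x) = c
      · exact ⟨a2, n1 _ _ (hfR x y (by omega)) (by simpa only [θ, if_pos a2] using a1)⟩
      · exact (a1 (if_neg a2)).elim
    have n3 : ∀ c, E c z = E c z' := by
      intro c
      by_cases hc : ∃ x y, mZ.d x y ≤ 1 ∧ E c x ≠ E c y
      · obtain ⟨x₀, y₀, a1, a2⟩ := hc
        obtain ⟨a3, a4⟩ := n2 c x₀ y₀ a1 a2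
        have far : ∀ w, R + (l * D₃ + l) < mX.d (Λ.pos (f w)) p → D₃ < mZ.d x₀ w := fun w hw => by
          by_contra b1
          have b2 := hl x₀ w
          have b3 := Nat.mul_le_mul_left l (not_lt.1 b1)
          have b4 := Λ.pos_lip (f x₀) (f w)
          have b5 := mX.tri (Λ.pos (f w)) (Λ.pos (f x₀)) p
          rw [mX.symm (Λ.pos (f w)) (Λ.pos (f x₀))] at b5
          omega
        refine hD₃ (E c) x₀ (fun x y b1 b2 => hD₂ _ _ ?_) z z' (far z hz) (far z' hz')
        obtain ⟨b3, b4⟩ := n2 c x y b1 b2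
        have b5 := mX.tri (Λ.pos (f x₀)) p (Λ.pos (f x))
        rw [mX.symm p] at b5
        refine Λ.close hM (4 * R) _ _ (by omega) fun s hs => ?_
        have b6 : ¬ 3 * R < mX.d p s := fun b7 => hs (by
          have := DFunLike.congr_fun (b3.trans a3.symm) s
          simpa only [κ, filter_apply, if_pos b7] using this)
        have := mX.tri (Λ.pos (f x₀)) p s
        omega
      · push Not at hc
        exact mZ.ind z (P := fun _ y => E c z = E c y) rfl
          (fun n y w _ b1 b2 => b1.trans (hc y w b2)) _ z' le_rfl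
    obtain ⟨γ, g0, g1, g2⟩ := mZ.path z _ z' le_rfl
    let C := (Finset.range (mZ.d z z')).image fun i => κ (f (γ i))
    have t1 : ∀ i : Fin (mZ.d z z'), χ (f (γ i)) + χ (f (γ (i + 1))) =
        ∑ c ∈ C, (E c (γ i) + E c (γ (i + 1))) := fun i => by
      rw [← Finset.sum_congr rfl fun c _ => hE c _ _ ((g2 i i.2).trans hr)]
      simp only [θ]
      rw [Finset.sum_ite_eq, if_pos (Finset.mem_image_of_mem _ (Finset.mem_range.2 i.2))]
    have t2 := telescope (fun i => χ (f (γ i))) (mZ.d z z')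
    rw [Finset.sum_congr rfl fun i _ => t1 i, Finset.sum_comm,
      Finset.sum_congr rfl fun c _ => telescope (fun i => E c (γ i)) (mZ.d z z'), g0, g1,
      Finset.sum_eq_zero fun c _ => by rw [n3, z2_add_self]] at t2
    have t3 := z2_eq_of_add t2.symm
    by_contra hc
    simp [χ, hc] at t3
  refine ⟨⟨l, fun x y => (Λ.pos_lip _ _).trans (hl x y)⟩, fun D => ?_⟩
  obtain ⟨D', hD'⟩ := hp (M ^ (D + (R + (l * D₃ + l))) * (2 * (D + (R + (l * D₃ + l))) + 1) +
    (D + (R + (l * D₃ + l))))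
  refine ⟨D', fun x y h => ?_⟩
  beta_reduce at h
  refine hD' x y (Λ.close hM _ _ _ (by omega) fun s hs => ?_)
  by_contra b1
  have b2 := mX.tri (Λ.pos (f x)) (Λ.pos (f y)) s
  exact hs (key x y s (by omega) (by omega))

end Pool.Agent.P.MP_c4d261_al
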