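import Pool.Agent.P.MP_c4d261_al.G.Emb

/-! An invariant graph metric on a group is one-ended, or has linear growth, or satisfies the
strong isoperimetric inequality. -/

set_option autoImplicit false

namespace Pool.Agent.P.MP_c4d261_al

section
variable {X α β : Type} {m : NMetric X}

theorem Cut.const {T : X → α} {g h x : X} {D : ℕ} (c : Cut m T g D) (hf : 2 * D < m.d g h)
    (hx : m.d h x ≤ D) : T x = T h :=
  m.ind h (P := fun n y => n ≤ D → T y = T h) (fun _ => rfl) (fun n y z h1 ih h2 hn => by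
    rw [← ih (by omega)]
    by_contra e
    have a1 := c y z h2 (Ne.symm e)
    have a2 := m.tri g y h
    rw [m.symm y h] at a2
    omega) _ x le_rfl hx

theorem Cut.disj {T : X → α} {T' : X → β} {g h : X} {D : ℕ} (c : Cut m T g D) (c' : Cut m T' h D)
    (hf : 2 * D < m.d g h) (x : X) : T x = T h ∨ T' x = T' g :=
  m.ind g (P := fun _ y => T y = T h ∨ T' y = T' g) (Or.inr rfl) (fun n y z _ ih h2 => by
    rw [m.symm] at h2
    rcases ih with ih | ih
    · by_cases e : T z = T y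
      · exact Or.inl (e.trans ih)
      · exact Or.inr (c'.const (by rwa [m.symm]) (c z y h2 e))
    · by_cases e : T' z = T' y
      · exact Or.inr (e.trans ih)
      · exact Or.inl (c.const hf (c' z y h2 e))) _ x le_rfl

theorem Cut.sep {T : X → α} {a b c : X} {D : ℕ} (h : Cut m T a D) (e : T c ≠ T b) :
    m.d b a + m.d a c ≤ m.d b c + 2 * D :=
  (m.ind b (P := fun n y => T y = T b ∨ m.d b a + m.d a y ≤ n + 2 * D) (Or.inl rfl)
    (fun n y z h1 ih h2 => by
      have a1 := m.tri a y z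
      rcases ih with ih | ih
      · by_cases e : T z = T y
        · exact Or.inl (e.trans ih)
        · have a2 := h y z h2 (Ne.symm e)
          have a3 := h z y (by rwa [m.symm]) e
          have a4 := m.tri b y a
          rw [m.symm y a] at a4
          exact Or.inr (by omega)
      · exact Or.inr (by omega)) _ c le_rfl).resolve_left e

theorem Cut.reach {T : X → α} {g : X} {D : ℕ} (c : Cut m T g D) {F W : Finset X} (h : Bd m F W)
    (hF : ∀ x, m.d g x ≤ D → x ∈ F) {x : X} (hx : x ∉ F) : ∃ w ∈ W, T w = T x :=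
  (m.ind g (P := fun _ y => y ∈ F ∨ ∃ w ∈ W, T w = T y) (Or.inl (hF g (by simp [m.refl])))
    (fun n y z _ ih h2 => by
      by_cases hy : y ∈ F
      · exact (h y hy z h2).imp_right fun e => ⟨z, e, rfl⟩
      · obtain ⟨w, a1, a2⟩ := ih.resolve_left hy
        refine Or.inr ⟨w, a1, a2.trans ?_⟩
        by_contra e
        exact hy (hF y (c y z h2 e))) _ x le_rfl).resolve_left hx

/-- Counting trifurcation points. -/
theorem iso_of_tri {M : ℕ} (hM : Deg m M) (T : X → X → Fin 3) (D : ℕ) (c : ∀ g, Cut m (T g) g D)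
    (hi : ∀ g i, {x | T g x = i}.Infinite) : Iso m := by
  classical
  obtain ⟨_, -⟩ := exists_wellFoundedLT X
  refine ⟨M ^ (2 * D) + M ^ D, fun F W hW => ?_⟩
  rcases isEmpty_or_nonempty X with hX | ⟨⟨o⟩⟩
  · simp [Finset.eq_empty_of_isEmpty F]
  have key : ∀ g, ∃ y, (∀ x, m.d g x ≤ D → x ∈ F) → y ∈ W ∧ T g y ≠ T g o ∧
      (∀ w ∈ W, T g w = T g y → y ≤ w) ∧ ∃ w ∈ W, w < y ∧ T g w ≠ T g o := fun g => by
    by_cases hF : ∀ x, m.d g x ≤ D → x ∈ F
    · have a1 : ∀ i, ∃ y ∈ W, T g y = i ∧ ∀ w ∈ W, T g w = i → y ≤ w := fun i => by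
        obtain ⟨x, b1, b2⟩ := (hi g i).exists_notMem_finset F
        obtain ⟨w, b3, b4⟩ := (c g).reach hW hF b2
        obtain ⟨y, b5, b6⟩ := (W.filter fun w => T g w = i).exists_min_image id
          ⟨w, Finset.mem_filter.2 ⟨b3, b4.trans b1⟩⟩
        rw [Finset.mem_filter] at b5
        exact ⟨y, b5.1, b5.2, fun w b7 b8 => b6 w (Finset.mem_filter.2 ⟨b7, b8⟩)⟩
      obtain ⟨i, j, a2, a3, a4⟩ : ∃ i j : Fin 3, i ≠ j ∧ i ≠ T g o ∧ j ≠ T g o := by
        generalize T g o = k
        revert k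
        decide
      obtain ⟨y, b1, b2, b3⟩ := a1 i
      obtain ⟨y', b4, b5, b6⟩ := a1 j
      rcases lt_trichotomy y y' with h | h | h
      · exact ⟨y', fun _ => ⟨b4, b5 ▸ a4, b5 ▸ b6, y, b1, h, b2 ▸ a3⟩⟩
      · exact (a2 (by rw [← b2, ← b5, h])).elim
      · exact ⟨y, fun _ => ⟨b1, b2 ▸ a3, b2 ▸ b3, y', b4, h, b5 ▸ a4⟩⟩
    · exact ⟨o, fun h => (hF h).elim⟩
  choose y hy using key
  have half : ∀ g h, (∀ x, m.d g x ≤ D → x ∈ F) → (∀ x, m.d h x ≤ D → x ∈ F) → y g = y h →
      2 * D < m.d g h → T g o ≠ T g h := by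
    intro g h a1 a2 e hf a3
    obtain ⟨-, b1, -, w, b2, b3, b4⟩ := hy g a1
    have b5 := ((c g).disj (c h) hf (y g)).resolve_left (a3 ▸ b1)
    have b6 := ((c g).disj (c h) hf w).resolve_left (a3 ▸ b4)
    exact absurd ((hy h a2).2.2.1 w b2 (by rw [b6, ← e, b5])) (by rw [← e]; exact not_le.2 b3)
  have a1 := Finset.card_le_mul_card_image_of_maps_to
    (s := F.filter fun g => ∀ x, m.d g x ≤ D → x ∈ F) (t := W) (f := y)
    (fun g hg => (hy g (Finset.mem_filter.1 hg).2).1) (M ^ (2 * D)) fun w _ => by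
      rcases ((F.filter fun g => ∀ x, m.d g x ≤ D → x ∈ F).filter
        fun g => y g = w).eq_empty_or_nonempty with e | ⟨g, hg⟩
      · simp [e]
      · simpa using hM.cover (2 * D) _ {g} id fun h hh => ⟨g, by simp, by
          simp only [Finset.mem_filter] at hg hh
          by_contra hf
          rw [id, not_le] at hf
          rcases (c g).disj (c h) hf o with e | e
          · exact half g h hg.1.2 hh.1.2 (hg.2.trans hh.2.symm) hf e
          · exact half h g hh.1.2 hg.1.2 (hh.2.trans hg.2.symm) (by rwa [m.symm]) e⟩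
  have a2 := hM.cover D (F.filter fun g => ¬ ∀ x, m.d g x ≤ D → x ∈ F) W id fun g hg => by
    rw [Finset.mem_filter] at hg
    obtain ⟨b1, b2⟩ := hg
    push Not at b2
    obtain ⟨x, b2, b3⟩ := b2
    obtain ⟨w, b4, b5⟩ := hW.near b1 b3
    exact ⟨w, b4, by rw [m.symm]; exact b5.trans b2⟩
  have a3 := Finset.card_filter_add_card_filter_not (s := F) fun g => ∀ x, m.d g x ≤ D → x ∈ F
  rw [add_mul]
  omega

end

variable {G : Type} [Group G] {m : NMetric G}

theorem Cut.shift (hm : ∀ g x y, m.d (g * x) (g * y) = m.d x y) {α : Type} {E : G → α} {a : G}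
    {D : ℕ} (c : Cut m E a D) (g : G) : Cut m (fun x => E (g⁻¹ * x)) (g * a) D := fun x y h e => by
  have := c (g⁻¹ * x) (g⁻¹ * y) (by rwa [hm]) e
  rwa [← hm g, mul_inv_cancel_left] at this

theorem infinite_shift {p : G → Prop} (h : {x | p x}.Infinite) (g : G) :
    {x | p (g⁻¹ * x)}.Infinite :=
  (h.image (mul_right_injective g).injOn).mono (by
    rintro _ ⟨x, hx, rfl⟩
    simpa using hx)

theorem oneE_of_fin (hm : ∀ g x y, m.d (g * x) (g * y) = m.d x y) {M : ℕ} (hM : Deg m M)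
    (h : ∀ D (E : G → ZMod 2), Cut m E 1 D → ∃ e, {x | E x ≠ e}.Finite) : OneE m := by
  intro D
  obtain ⟨B, -, hB⟩ := hM.ball 1 D
  have : Finite {E : G → ZMod 2 // Cut m E 1 D} := by
    refine Finite.of_injective (β := B → ZMod 2) (fun E x => E.1 x) fun E E' e => ?_
    refine Subtype.ext (funext fun x => m.ind 1 (P := fun _ y => E.1 y = E'.1 y)
      (congrFun e ⟨1, (hB 1).2 (by simp [m.refl])⟩) (fun n y z _ ih h2 => ?_) _ x le_rfl)
    by_cases hz : m.d 1 z ≤ D
    · exact congrFun e ⟨z, (hB z).2 hz⟩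
    · rw [m.symm] at h2
      rw [not_not.1 fun e => hz (E.2 z y h2 e), not_not.1 fun e => hz (E'.2 z y h2 e), ih]
  have a1 : ∀ E : {E : G → ZMod 2 // Cut m E 1 D}, ∃ D' e, ∀ x, D' < m.d 1 x → E.1 x = e := by
    intro E
    obtain ⟨e, he⟩ := h D E.1 E.2
    refine ⟨he.toFinset.sup (m.d 1), e, fun x hx => ?_⟩
    by_contra hc
    exact absurd (Finset.le_sup (f := m.d 1) (he.mem_toFinset.2 hc)) (not_le.2 hx)
  choose D' e he using a1
  obtain ⟨D'', hD⟩ := Finite.exists_le D'
  refine ⟨D'', fun E g c x y hx hy => ?_⟩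
  have c' := c.shift hm g⁻¹
  rw [inv_mul_cancel] at c'
  have a2 := fun x (hx : D'' < m.d g x) => he ⟨_, c'⟩ (g⁻¹ * x) ((hD _).trans_lt (by
    rwa [← hm g, mul_one, mul_inv_cancel_left]))
  simpa using (a2 x hx).trans (a2 y hy).symm

theorem trichotomy (hm : ∀ g x y, m.d (g * x) (g * y) = m.d x y) {M : ℕ} (hM : Deg m M) :
    OneE m ∨ Lin m ∨ Iso m := by
  classical
  by_cases h : ∀ D (E : G → ZMod 2), Cut m E 1 D → ∃ e, {x | E x ≠ e}.Finite
  · exact Or.inl (oneE_of_fin hm hM h)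
  push Not at h
  obtain ⟨D, E, c, hE⟩ := h
  have c1 : ∀ g, Cut m (fun x => E (g⁻¹ * x)) g D := fun g => by simpa using c.shift hm g
  have i1 : ∀ g e, {x | E (g⁻¹ * x) ≠ e}.Infinite := fun g e =>
    infinite_shift (p := fun x => E x ≠ e) (hE e) g
  refine Or.inr ?_
  by_cases ht : ∃ a b c, 2 * D < m.d a b ∧ 2 * D < m.d a c ∧ 2 * D < m.d b c ∧
      E (a⁻¹ * b) = E (a⁻¹ * c) ∧ E (b⁻¹ * a) = E (b⁻¹ * c) ∧ E (c⁻¹ * a) = E (c⁻¹ * b)
  · obtain ⟨a, b, c, h1, h2, h3, h4, h5, h6⟩ := ht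
    let T : G → Fin 3 := fun x =>
      if E (b⁻¹ * x) = E (b⁻¹ * a) then if E (c⁻¹ * x) = E (c⁻¹ * a) then 0 else 2 else 1
    have t1 : Cut m T 1 (D + m.d 1 b + m.d 1 c) := fun x y d e => by
      have a1 := m.tri 1 b x
      have a2 := m.tri 1 c x
      by_cases e1 : E (b⁻¹ * x) = E (b⁻¹ * y)
      · have := c1 c x y d fun e2 => e (by simp only [T, e1, e2])
        omega
      · have := c1 b x y d e1
        omega
    have t2 : ∀ i, {x | T x = i}.Infinite := fun i => by
      fin_cases i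
      · refine (i1 a (E (a⁻¹ * b))).mono fun x hx => ?_
        have a1 := ((c1 a).disj (c1 b) h1 x).resolve_left hx
        have a2 := ((c1 a).disj (c1 c) h2 x).resolve_left (h4 ▸ hx)
        simp [T, a1, a2]
      · refine (i1 b (E (b⁻¹ * a))).mono fun x hx => ?_
        exact if_neg hx
      · refine (i1 c (E (c⁻¹ * a))).mono fun x hx => ?_
        have a1 := ((c1 b).disj (c1 c) h3 x).resolve_right (h6 ▸ hx)
        simp [T, a1, h5, if_neg hx]
    exact Or.inr (iso_of_tri hM (fun g x => T (g⁻¹ * x)) _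
      (fun g => by simpa using t1.shift hm g) fun g i => infinite_shift (p := fun x => T x = i) (t2 i) g)
  refine Or.inl ⟨M ^ (2 * D) * 2, fun o n F hF => ?_⟩
  have := Finset.card_le_mul_card_image_of_maps_to (s := F)
    (t := Finset.range (n + 1) ×ˢ (Finset.univ : Finset (ZMod 2)))
    (f := fun x => (m.d o x, E (o⁻¹ * x)))
    (fun x hx => by simpa [Nat.lt_succ_iff] using hF x hx) (M ^ (2 * D)) fun w _ => by
      by_cases hw : w.1 ≤ 2 * D
      · simpa using hM.cover (2 * D) (F.filter fun x => (m.d o x, E (o⁻¹ * x)) = w) {o} id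
          fun x hx => ⟨o, by simp, by rwa [← (Finset.mem_filter.1 hx).2] at hw⟩
      rcases (F.filter fun x => (m.d o x, E (o⁻¹ * x)) = w).eq_empty_or_nonempty with e | ⟨g, hg⟩
      · simp [e]
      · simpa using hM.cover (2 * D) _ {g} id fun h hh => ⟨g, by simp, by
          have a1 := (Finset.mem_filter.1 hg).2
          have a2 := (Finset.mem_filter.1 hh).2
          have a3 := Prod.ext_iff.1 (a1.trans a2.symm)
          rw [← a1] at hw
          simp only at a3 hw
          by_contra hf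
          rw [id, not_le] at hf
          refine ht ⟨o, g, h, by omega, by omega, hf, a3.2, ?_, ?_⟩
          · by_contra e
            have := (c1 g).sep (Ne.symm e)
            omega
          · by_contra e
            have := (c1 h).sep (Ne.symm e)
            rw [m.symm h g] at this
            omega⟩
  simpa [mul_assoc, mul_comm (n + 1)] using this

end Pool.Agent.P.MP_c4d261_al
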