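import Pool.Agent.P.MP_c4d261_al.G.Defs
import Pool.Agent.P.MP_c4d261_al.G.Ends
import Pool.Agent.P.MP_c4d261_al.Main

/-! Wreath products with finite lamp groups as lamplighter spaces; iterated lamplighter spaces. -/

set_option autoImplicit false

open Finsupp

namespace Pool.Agent.P.MP_c4d261_al

theorem wr_isLampA (F : Type) [Group F] [Finite F] {G : Type} [Group G] {S : Finset G}
    (hS : Subgroup.closure (S : Set G) = ⊤) :
    ∃ (S' : Finset (Wr F G)) (hS' : Subgroup.closure (S' : Set (Wr F G)) = ⊤)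
      (Λ : IsLampA (ZMod (Nat.card F)) (wm S hS) (wm S' hS')), Λ.mk' 0 1 = 1 := by
  classical
  have := Fintype.ofFinite F
  have : NeZero (Nat.card F) := ⟨Nat.card_pos.ne'⟩
  obtain ⟨e, e1⟩ : ∃ e : F ≃ ZMod (Nat.card F), e 1 = 0 := by
    let e' : F ≃ ZMod (Nat.card F) := Fintype.equivOfCardEq (by simp)
    exact ⟨e'.trans (Equiv.subRight (e' 1)), by simp⟩
  have e2 : e.symm 0 = 1 := by rw [← e1, e.symm_apply_apply]
  let mk : (G →₀ ZMod (Nat.card F)) → G → Wr F G := fun c x =>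
    ⟨⟨fun z => e.symm (c z), x⟩, Set.Finite.subset c.hasFiniteSupport fun z hz h => hz (by simp only [h, e2])⟩
  let col : Wr F G → G →₀ ZMod (Nat.card F) := fun y =>
    ofSupportFinite (fun z => e (y.1.left z))
      (Set.Finite.subset y.2 fun z hz h => hz (by simp only [h, e1]))
  have col_mk : ∀ c x, col (mk c x) = c := fun c x => by
    ext z
    simp [col, mk, ofSupportFinite_coe]
  have mk_col : ∀ y, mk (col y) y.1.right = y := fun y =>
    Subtype.ext (RegularWreathProduct.ext (funext fun z => by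
      simp [col, mk, ofSupportFinite_coe]) rfl)
  let ι : G →* Wr F G := RegularWreathProduct.inl.codRestrict (Wr F G) fun x => by
    change (Function.mulSupport (1 : G → F)).Finite
    simp
  let a : F → Wr F G := fun t => mk (single 1 (e t)) 1
  have m1 : ∀ c x y, mk c x * ι y = mk c (x * y) := fun c x y =>
    Subtype.ext (RegularWreathProduct.ext (funext fun z => mul_one _) rfl)
  have m2 : ∀ c x t, mk c x * a t = mk (c + single x (e (e.symm (c x) * t) - c x)) x := fun c x t =>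
    Subtype.ext (RegularWreathProduct.ext (funext fun z => by
      change e.symm (c z) * e.symm (single (1 : G) (e t) (x⁻¹ * z)) =
        e.symm ((c + single x (e (e.symm (c x) * t) - c x) : G →₀ _) z)
      by_cases hz : z = x
      · subst hz
        simp
      · have : x⁻¹ * z ≠ 1 := fun h => hz (inv_mul_eq_one.1 h).symm
        simp [single_eq_of_ne hz, single_eq_of_ne this, e2]) (mul_one x))
  have m3 : ∀ c x b, ∃ t, mk c x * a t = mk (c + single x b) x := fun c x b =>
    ⟨(e.symm (c x))⁻¹ * e.symm (c x + b), by rw [m2]; simp⟩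
  have e0 : mk 0 1 = 1 :=
    Subtype.ext (RegularWreathProduct.ext (funext fun z => e2) rfl)
  have e3 : ∀ t, (a t)⁻¹ = a t⁻¹ := fun t => by
    rw [inv_eq_iff_mul_eq_one, m2, ← e0]
    simp [e1]
  have ha : ∀ t, a t ∈ Finset.univ.image a ∪ S.image ι := fun t => by simp
  have hι : ∀ s ∈ S, ι s ∈ Finset.univ.image a ∪ S.image ι := fun s hs =>
    Finset.mem_union_right _ (Finset.mem_image_of_mem _ hs)
  have hS' : Subgroup.closure ((Finset.univ.image a ∪ S.image ι : Finset (Wr F G)) :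
      Set (Wr F G)) = ⊤ := by
    set K := Subgroup.closure ((Finset.univ.image a ∪ S.image ι : Finset (Wr F G)) :
      Set (Wr F G)) with hK
    have h1 : ∀ x, ι x ∈ K := fun x => by
      have : x ∈ K.comap ι := by
        refine ((Subgroup.closure_le _).2 fun s hs => ?_) (hS ▸ Subgroup.mem_top x :)
        exact Subgroup.subset_closure (hι s hs)
      exact this
    have h2 : ∀ t, a t ∈ K := fun t => Subgroup.subset_closure (ha t)
    have h3 : ∀ c, mk c 1 ∈ K := fun c => by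
      induction c using Finsupp.induction with
      | zero => exact e0 ▸ K.one_mem
      | single_add x b c _ hb ih =>
        obtain ⟨t, ht⟩ := m3 c x b
        have : mk (single x b + c) 1 = mk c 1 * ι x * a t * ι x⁻¹ := by
          rw [m1, one_mul, ht, m1, mul_inv_cancel, add_comm]
        rw [this]
        exact K.mul_mem (K.mul_mem (K.mul_mem ih (h1 x)) (h2 t)) (h1 _)
    refine top_unique fun y _ => ?_
    have : y = mk (col y) 1 * ι y.1.right := by rw [m1, one_mul, mk_col]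
    rw [this]
    exact K.mul_mem (h3 _) (h1 _)
  refine ⟨Finset.univ.image a ∪ S.image ι, hS',
    { mk' := mk
      col := col
      pos := fun y => y.1.right
      col_mk := col_mk
      pos_mk := fun _ _ => rfl
      mk_col_pos := mk_col
      move := fun c x x' => ?_
      toggle := fun c x b => ?_
      adj := fun y y' h => ?_ }, e0⟩
  · have := wm_lip hS hS' ι (M := 1) (fun s hs => wl_gen (Or.inl (hι s hs))) x x'
    have e : (mk c x)⁻¹ * mk c x' = (ι x)⁻¹ * ι x' := by
      rw [inv_mul_eq_iff_eq_mul, ← map_inv, ← map_mul, m1, mul_inv_cancel_left]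
    rw [wm_d, e, ← wm_d hS']
    omega
  · obtain ⟨t, ht⟩ := m3 c x b
    rw [wm_d, ← ht, inv_mul_cancel_left]
    exact wl_gen (Or.inl (ha t))
  · have n1 : ∀ s, (s ∈ S ∨ s⁻¹ ∈ S) → y' = y * ι s →
        col y' = col y ∧ (wm S hS).d y.1.right y'.1.right ≤ 1 := fun s hs e => by
      rw [← mk_col y, m1] at e
      rw [e, col_mk]
      exact ⟨rfl, by simpa [wm_d, mk] using wl_gen hs⟩
    have n2 : ∀ t, y' = y * a t → y'.1.right = y.1.right ∧
        ∃ b, col y' = col y + single y.1.right b := fun t e => by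
      rw [← mk_col y, m2] at e
      rw [e, col_mk]
      exact ⟨rfl, _, rfl⟩
    rcases wm_adj hS' h with rfl | ⟨s, hs, h⟩
    · exact Or.inl ⟨rfl, by simp [NMetric.refl]⟩
    · rcases Finset.mem_union.1 hs with hs | hs
      · obtain ⟨t, -, rfl⟩ := Finset.mem_image.1 hs
        rw [e3] at h
        exact Or.inr (h.elim (n2 _) (n2 _))
      · obtain ⟨t, ht, rfl⟩ := Finset.mem_image.1 hs
        rcases h with h | h
        · exact Or.inl (n1 t (Or.inl ht) h)
        · exact Or.inl (n1 t⁻¹ (Or.inr (by simpa using ht)) (by rwa [map_inv]))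

/-- `n`-fold iterated lamplighter spaces over `X` with finite nontrivial lamp groups. -/
inductive Iter {X : Type} (mX : NMetric X) (o : X) : ∀ {Y : Type}, NMetric Y → Y → ℕ → Prop
  | base : Iter mX o mX o 0
  | step {Y L L' : Type} {mY : NMetric Y} {oY : Y} {n : ℕ} (h : Iter mX o mY oY n) (A : Type)
      [AddCommGroup A] [Fintype A] [Nontrivial A] {mL : NMetric L} (Λ : IsLampA A mY mL)
      {mL' : NMetric L'} (Λ' : IsLamp mY mL') (M : ℕ) (hM : Deg mY M) :
      Iter mX o mL (Λ.mk' 0 oY) (n + 1)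

theorem iter_wr (H : GrpCat.{0}) {S : Finset H} (hS : Subgroup.closure (S : Set H) = ⊤)
    (l : List GrpCat.{0}) (hl : ∀ F ∈ l, Finite F ∧ Nontrivial F) :
    ∃ (T : Finset (iterWr H l)) (hT : Subgroup.closure (T : Set (iterWr H l)) = ⊤),
      Iter (wm S hS) 1 (wm T hT) 1 l.length := by
  induction l with
  | nil => exact ⟨S, hS, Iter.base⟩
  | cons F l ih =>
    obtain ⟨T, hT, h⟩ := ih fun F hF => hl F (List.mem_cons_of_mem _ hF)
    obtain ⟨_, _⟩ := hl F (by simp)
    obtain ⟨T', hT', Λ, e⟩ := wr_isLampA F hT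
    obtain ⟨_, _, Λ', -⟩ := lamp_isLamp hT
    have : NeZero (Nat.card F) := ⟨Nat.card_pos.ne'⟩
    have : Fact (1 < Nat.card F) := ⟨Finite.one_lt_card⟩
    have := h.step _ Λ Λ' _ (wm_deg hT)
    rw [e] at this
    exact ⟨T', hT', this⟩

namespace Iter

variable {X Y Z : Type} {mX : NMetric X} {o : X} {mY : NMetric Y} {oY : Y} {n : ℕ}

theorem iso_iff (h : Iter mX o mY oY n) : Iso mX ↔ Iso mY := by
  induction h with
  | base => rfl
  | step _ A Λ _ _ _ ih => exact ih.trans ⟨Iso.up Λ, Iso.down Λ⟩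

theorem ce_up (h : Iter mX o mY oY n) : ∃ f, CE mX mY f := by
  induction h with
  | base => exact ⟨id, ⟨1, fun x y => by simp⟩, fun D => ⟨D, fun _ _ h => h⟩⟩
  | step _ A Λ _ _ _ ih =>
    obtain ⟨f, hf⟩ := ih
    refine ⟨_, hf.comp (g := Λ.mk' 0) ⟨⟨1, fun x y => ?_⟩, fun D => ⟨D, fun x y h => ?_⟩⟩⟩
    · have := Λ.move 0 x y
      omega
    · have := Λ.pos_lip (Λ.mk' 0 x) (Λ.mk' 0 y)
      rw [Λ.pos_mk, Λ.pos_mk] at this
      omega

theorem ce_down (h : Iter mX o mY oY n) {mZ : NMetric Z} (h1 : OneE mZ) {r : ℕ} (hr : 1 ≤ r)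
    (hex : Exact mZ r) : (∃ f, CE mZ mY f) → ∃ f, CE mZ mX f := by
  induction h with
  | base => exact id
  | step _ A Λ _ _ hM ih => exact fun ⟨f, hf⟩ => ih ⟨_, hf.pos Λ hM h1 hr hex⟩

theorem tower (h : Iter mX o mY oY n) (B : ℕ → Finset X) (hB : ∀ n x, x ∈ B n ↔ mX.d o x ≤ n) :
    ∃ F : ℕ → ℕ, Nonempty (Tower mX o mY oY F) ∧ (∀ k, 1 ≤ F k) ∧
      ∀ β, ∃ A, ∀ k, β * F k ≤ tw n (A * (B k).card) := by
  induction h with
  | base => exact ⟨_, Tower.base _ _ B hB, fun k => Finset.card_pos.2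
      ⟨o, (hB _ _).2 (by simp [mX.refl])⟩, fun β => ⟨β, fun _ => le_rfl⟩⟩
  | step _ A Λ _ _ _ ih =>
    obtain ⟨F, ⟨T⟩, h1, h2⟩ := ih
    refine ⟨_, T.liftA Λ, fun k => Nat.mul_pos (Nat.pow_pos Fintype.card_pos) (h1 k), fun β => ?_⟩
    obtain ⟨C, hC⟩ := h2 (β + Fintype.card A + 1)
    refine ⟨C, fun k => ?_⟩
    rw [tw_succ']
    refine le_trans ?_ (Nat.pow_le_pow_right (by norm_num) (hC k))
    have a1 := h1 k
    calc β * (Fintype.card A ^ F k * F k) ≤ 2 ^ β * ((2 ^ Fintype.card A) ^ F k * 2 ^ F k) :=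
        Nat.mul_le_mul Nat.lt_two_pow_self.le (Nat.mul_le_mul
          (Nat.pow_le_pow_left Nat.lt_two_pow_self.le _) Nat.lt_two_pow_self.le)
      _ = 2 ^ (β + Fintype.card A * F k + F k) := by ring
      _ ≤ 2 ^ ((β + Fintype.card A + 1) * F k) :=
        Nat.pow_le_pow_right (by norm_num) (by nlinarith)

theorem low (h : Iter mX o mY oY n) {τ r R n₀ N : ℕ} (hr : 2 * τ + 2 ≤ r)
    (h0 : ∀ {L : Type} {mL : NMetric L} (Λ : IsLamp mX mL),
      Nonempty (LowData mL (Λ.mk' 0 o) τ r R n₀ (tw 1 N))) :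
    (∀ {L : Type} {mL : NMetric L} (Λ : IsLamp mY mL),
      Nonempty (LowData mL (Λ.mk' 0 oY) τ r R n₀ (tw (n + 1) N))) ∧
      (n ≠ 0 → Nonempty (LowData mY oY τ r R n₀ (tw n N))) := by
  induction h with
  | base => exact ⟨h0, fun h => (h rfl).elim⟩
  | step _ A Λ Λ' _ _ ih =>
    obtain ⟨D⟩ := ih.1 Λ'
    obtain ⟨D'⟩ := D.toA Λ' Λ
    refine ⟨fun Λ'' => ?_, fun _ => ⟨D'⟩⟩
    rw [tw_succ']
    exact D'.lift Λ'' hr

end Iter

end Pool.Agent.P.MP_c4d261_al
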