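import Pool.Agent.P.MP_c4d261_al.G.LampA

/-! The strong isoperimetric inequality: invariance under coarse equivalence and under the
lamplighter construction; it fails under linear growth. -/

set_option autoImplicit false

open Finsupp

namespace Pool.Agent.P.MP_c4d261_al

variable {X Y L : Type}

/-- `W` contains the outer boundary of `F`. -/
def Bd (m : NMetric X) (F W : Finset X) : Prop :=
  ∀ x ∈ F, ∀ y, m.d x y ≤ 1 → y ∈ F ∨ y ∈ W

/-- Strong isoperimetric inequality. -/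
def Iso (m : NMetric X) : Prop := ∃ C : ℕ, ∀ F W : Finset X, Bd m F W → F.card ≤ C * W.card

/-- Linear growth. -/
def Lin (m : NMetric X) : Prop :=
  ∃ K : ℕ, ∀ o n (F : Finset X), (∀ x ∈ F, m.d o x ≤ n) → F.card ≤ K * (n + 1)

theorem Bd.near {m : NMetric X} {F W : Finset X} (h : Bd m F W) {x y : X} (hx : x ∈ F)
    (hy : y ∉ F) : ∃ w ∈ W, m.d x w ≤ m.d x y := by
  refine (m.ind x (P := fun n y => y ∈ F ∨ ∃ w ∈ W, m.d x w ≤ n) (Or.inl hx)
    (fun n y z h1 h2 h3 => ?_) _ y le_rfl).resolve_left hy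
  rcases h2 with h2 | ⟨w, h4, h5⟩
  · have := m.tri x y z
    exact (h y h2 z h3).imp_right fun h4 => ⟨z, h4, by omega⟩
  · exact Or.inr ⟨w, h4, by omega⟩

theorem Deg.cover {m : NMetric X} {M : ℕ} (hM : Deg m M) (n : ℕ) (F : Finset X) (W : Finset Y)
    (c : Y → X) (h : ∀ x ∈ F, ∃ w ∈ W, m.d (c w) x ≤ n) : F.card ≤ M ^ n * W.card := by
  classical
  choose B b1 b2 using fun o => hM.ball o n
  rw [mul_comm]
  refine (Finset.card_le_card fun x hx => ?_).trans
    (Finset.card_biUnion_le_card_mul W (fun w => B (c w)) _ fun w _ => b1 _)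
  obtain ⟨w, h1, h2⟩ := h x hx
  exact Finset.mem_biUnion.2 ⟨w, h1, (b2 _ _).2 h2⟩

theorem Iso.of_coarse {m : NMetric X} {m' : NMetric Y} (h : Coarse m m') {M M' : ℕ}
    (hM : Deg m M) (hM' : Deg m' M') (hI : Iso m') : Iso m := by
  classical
  obtain ⟨f, g, l, h1, h2, h3, h4⟩ := h
  obtain ⟨C, hC⟩ := hI
  choose B b1 b2 using fun o n => hM'.ball o n
  refine ⟨M ^ l * (C * M' ^ (l * (4 * l) + 2 * l)) + M ^ l, fun F W hW => ?_⟩
  have a1 : Bd m' ((F.biUnion fun x => B (f x) l).filter fun y => g y ∈ F)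
      (W.biUnion fun w => B (f w) (l * (4 * l) + 2 * l)) := by
    intro y hy z hz
    have c1 := (Finset.mem_filter.1 hy).2
    have c2 := h4 z
    by_cases c3 : g z ∈ F
    · exact Or.inl (Finset.mem_filter.2 ⟨Finset.mem_biUnion.2 ⟨g z, c3, (b2 _ _ _).2
        (by rwa [m'.symm])⟩, c3⟩)
    · obtain ⟨w, d1, d2⟩ := hW.near c1 c3
      refine Or.inr (Finset.mem_biUnion.2 ⟨w, d1, (b2 _ _ _).2 ?_⟩)
      have d3 := h2 y z
      have d4 := Nat.mul_le_mul_left l hz
      have d5 := m.tri w (g y) (g z)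
      rw [m.symm w (g y)] at d5
      have d6 := h1 w (g z)
      have d7 := Nat.mul_le_mul_left l (show m.d w (g z) ≤ 4 * l by omega)
      have d8 := m'.tri (f w) (f (g z)) z
      rw [m'.symm (f (g z)) z] at d8
      omega
  have a2 := (hC _ _ a1).trans (Nat.mul_le_mul_left C
    (Finset.card_biUnion_le_card_mul W _ _ fun w _ => b1 (f w) _))
  have a3 := hM.cover l (F.filter fun x => g (f x) ∈ F)
    ((F.biUnion fun x => B (f x) l).filter fun y => g y ∈ F) g fun x hx => by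
      rw [Finset.mem_filter] at hx
      exact ⟨f x, Finset.mem_filter.2 ⟨Finset.mem_biUnion.2 ⟨x, hx.1, (b2 _ _ _).2
        (by simp [m'.refl])⟩, hx.2⟩, by rw [m.symm]; exact h3 x⟩
  have a4 := hM.cover l (F.filter fun x => ¬ g (f x) ∈ F) W id fun x hx => by
    rw [Finset.mem_filter] at hx
    obtain ⟨w, d1, d2⟩ := hW.near hx.1 hx.2
    exact ⟨w, d1, by rw [m.symm]; exact d2.trans (h3 x)⟩
  have a5 := Finset.card_filter_add_card_filter_not (s := F) fun x => g (f x) ∈ F
  have a6 := Nat.mul_le_mul_left (M ^ l) a2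
  nlinarith

variable {A : Type} [AddCommGroup A] {mX : NMetric X} {mL : NMetric L}

theorem Iso.up (Λ : IsLampA A mX mL) (h : Iso mX) : Iso mL := by
  classical
  obtain ⟨C, hC⟩ := h
  refine ⟨C, fun F W hW => ?_⟩
  have key : ∀ c, (F.filter fun y => Λ.col y = c).card ≤
      C * (W.filter fun y => Λ.col y = c).card := fun c => by
    have h1 := hC ((F.filter fun y => Λ.col y = c).image Λ.pos)
      ((W.filter fun y => Λ.col y = c).image Λ.pos) fun x hx z hz => by
        obtain ⟨y, hy, rfl⟩ := Finset.mem_image.1 hx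
        rw [Finset.mem_filter] at hy
        have h2 := (Λ.move c (Λ.pos y) z).trans hz
        have h3 : Λ.mk' c (Λ.pos y) = y := by rw [← hy.2, Λ.mk_col_pos]
        rw [h3] at h2
        exact (hW y hy.1 _ h2).imp
          (fun h4 => Finset.mem_image.2 ⟨_, Finset.mem_filter.2 ⟨h4, Λ.col_mk _ _⟩, Λ.pos_mk _ _⟩)
          fun h4 => Finset.mem_image.2 ⟨_, Finset.mem_filter.2 ⟨h4, Λ.col_mk _ _⟩, Λ.pos_mk _ _⟩
    rw [Finset.card_image_of_injOn fun y hy y' hy' e => by
      rw [← Λ.mk_col_pos y, ← Λ.mk_col_pos y', e, (Finset.mem_filter.1 hy).2,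
        (Finset.mem_filter.1 hy').2]] at h1
    exact h1.trans (Nat.mul_le_mul_left C Finset.card_image_le)
  rw [Finset.card_eq_sum_card_image Λ.col F]
  refine (Finset.sum_le_sum fun c _ => key c).trans ?_
  rw [← Finset.mul_sum, Finset.sum_card_fiberwise_eq_card_filter]
  exact Nat.mul_le_mul_left C (Finset.card_filter_le _ _)

theorem Iso.down [Fintype A] (Λ : IsLampA A mX mL) (h : Iso mL) : Iso mX := by
  obtain ⟨C, hC⟩ := h
  refine ⟨C, fun F W hW => ?_⟩
  obtain ⟨B, b1, b2⟩ := Λ.exists_box F F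
  obtain ⟨B', b3, b4⟩ := Λ.exists_box F W
  have h1 := hC B B' fun y hy z hz => by
    rw [b1] at hy
    rw [b1, b3]
    rcases Λ.adj y z hz with h | ⟨h, a, ha⟩
    · rw [h.1]
      exact (hW _ hy.2 _ h.2).imp (fun e => ⟨hy.1, e⟩) fun e => ⟨hy.1, e⟩
    · refine Or.inl ⟨fun s hs => ?_, h ▸ hy.2⟩
      by_cases e : s = Λ.pos y
      · exact e ▸ hy.2
      · rw [ha, Finsupp.mem_support_iff, Finsupp.add_apply, single_eq_of_ne e, add_zero] at hs
        exact hy.1 (Finsupp.mem_support_iff.2 hs)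
  rw [b2, b4, mul_left_comm] at h1
  exact Nat.le_of_mul_le_mul_left h1 (Nat.pow_pos Fintype.card_pos)

theorem Lin.not_iso {m : NMetric X} (o : X) (B : ℕ → Finset X)
    (hB : ∀ n x, x ∈ B n ↔ m.d o x ≤ n) (hv : ∀ k, k + 1 ≤ (B k).card) (K : ℕ)
    (hK : ∀ n, (B n).card ≤ K * (n + 1)) : ¬ Iso m := by
  classical
  rintro ⟨C, hC⟩
  have h1 : ∀ n, (B n).card + C * (B n).card ≤ C * (B (n + 1)).card := fun n => by
    have a1 : B n ⊆ B (n + 1) := fun x hx => (hB _ _).2 (((hB _ _).1 hx).trans (by omega))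
    have a2 := hC (B n) (B (n + 1) \ B n) fun x hx y hy => by
      by_cases e : y ∈ B n
      · exact Or.inl e
      · have := m.tri o x y
        have := (hB _ _).1 hx
        exact Or.inr (Finset.mem_sdiff.2 ⟨(hB _ _).2 (by omega), e⟩)
    rw [← Finset.card_sdiff_add_card_eq_card a1, mul_add]
    omega
  have h2 : ∀ n, n * (n + 1) ≤ 2 * (C * (B n).card) := fun n => by
    induction n with
    | zero => simp
    | succ n ih =>
      have := h1 n
      have := hv n
      nlinarith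
  have h3 := h2 (2 * C * K + 1)
  have h4 := Nat.mul_le_mul_left C (hK (2 * C * K + 1))
  nlinarith

end Pool.Agent.P.MP_c4d261_al
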