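import Pool.Agent.P.MP_c4d261_al.Graph
import Pool.Agent.P.MP_c4d261_al.Tower

/-! Lamplighter spaces with lamps in a finite abelian group. -/

set_option autoImplicit false

open Finsupp

namespace Pool.Agent.P.MP_c4d261_al

variable {H X Y L L' : Type}

/-- `L` is the lamplighter space over `X` with lamps in `A`. -/
structure IsLampA (A : Type) [AddCommGroup A] (mX : NMetric X) (mL : NMetric L) where
  mk' : (X →₀ A) → X → L
  col : L → X →₀ A
  pos : L → X
  col_mk : ∀ c x, col (mk' c x) = c
  pos_mk : ∀ c x, pos (mk' c x) = x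
  mk_col_pos : ∀ y, mk' (col y) (pos y) = y
  move : ∀ c x x', mL.d (mk' c x) (mk' c x') ≤ mX.d x x'
  toggle : ∀ c x a, mL.d (mk' c x) (mk' (c + single x a) x) ≤ 1
  adj : ∀ y y', mL.d y y' ≤ 1 → (col y' = col y ∧ mX.d (pos y) (pos y') ≤ 1) ∨
    (pos y' = pos y ∧ ∃ a, col y' = col y + single (pos y) a)

namespace IsLampA

variable {A : Type} [AddCommGroup A] {mX : NMetric X} {mL : NMetric L} (Λ : IsLampA A mX mL)

theorem pos_lip (y y' : L) : mX.d (Λ.pos y) (Λ.pos y') ≤ mL.d y y' := by
  have := mL.lip mX Λ.pos 1 (fun y y' h => by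
    rcases Λ.adj y y' h with h | h
    · exact h.2
    · rw [h.1, mX.refl]; omega) y y'
  omega

theorem near_of_ne (y y' : L) (z : X) (h : Λ.col y' z ≠ Λ.col y z) :
    mX.d (Λ.pos y) z ≤ mL.d y y' := by
  revert z
  refine mL.ind y (P := fun n y' => ∀ z, Λ.col y' z ≠ Λ.col y z → mX.d (Λ.pos y) z ≤ n)
    (by simp) (fun n y' y'' h1 ih h2 z hz => ?_) _ y' le_rfl
  rcases Λ.adj y' y'' h2 with h | ⟨h, a, ha⟩
  · rw [h.1] at hz; have := ih z hz; omega
  · by_cases hz' : z = Λ.pos y'
    · have := Λ.pos_lip y y'; rw [hz']; omega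
    · rw [ha, Finsupp.add_apply, single_eq_of_ne hz', add_zero] at hz
      have := ih z hz; omega

theorem toggle_far (c : X →₀ A) (x s : X) (a : A) :
    mL.d (Λ.mk' c x) (Λ.mk' (c + single s a) x) ≤ 2 * mX.d x s + 1 := by
  have h1 := Λ.move c x s
  have h2 := Λ.toggle c s a
  have h3 := Λ.move (c + single s a) s x
  have h4 := mL.tri (Λ.mk' c x) (Λ.mk' c s) (Λ.mk' (c + single s a) x)
  have h5 := mL.tri (Λ.mk' c s) (Λ.mk' (c + single s a) s) (Λ.mk' (c + single s a) x)
  rw [mX.symm s x] at h3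
  omega

theorem add_far (x : X) (n : ℕ) (e : X →₀ A) : (∀ s ∈ e.support, mX.d x s ≤ n) → ∀ c,
    mL.d (Λ.mk' c x) (Λ.mk' (c + e) x) ≤ e.support.card * (2 * n + 1) := by
  classical
  induction e using Finsupp.induction with
  | zero => intro _ c; simp [mL.refl]
  | single_add s a e hs ha ih =>
    intro h c
    have e1 : (single s a + e).support = insert s e.support := by
      rw [support_single_add hs ha, Finset.cons_eq_insert]
    rw [e1] at h ⊢
    have h1 := Λ.toggle_far c x s a
    have h2 := ih (fun t ht => h t (Finset.mem_insert_of_mem ht)) (c + single s a)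
    have h3 := h s (Finset.mem_insert_self _ _)
    have h4 := mL.tri (Λ.mk' c x) (Λ.mk' (c + single s a) x) (Λ.mk' (c + single s a + e) x)
    rw [Finset.card_insert_of_notMem hs, ← add_assoc, add_mul]
    omega

/-- Two points whose colourings differ only near the first position are close. -/
theorem close {M : ℕ} (hM : Deg mX M) (n : ℕ) (y y' : L) (h1 : mX.d (Λ.pos y) (Λ.pos y') ≤ n)
    (h2 : ∀ z, Λ.col y' z ≠ Λ.col y z → mX.d (Λ.pos y) z ≤ n) :
    mL.d y y' ≤ M ^ n * (2 * n + 1) + n := by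
  obtain ⟨B, b1, b2⟩ := hM.ball (Λ.pos y) n
  have h3 : ∀ s ∈ (Λ.col y' - Λ.col y).support, mX.d (Λ.pos y) s ≤ n := fun s hs =>
    h2 s (by simpa [sub_eq_zero] using hs)
  have h4 := Λ.add_far (Λ.pos y) n _ h3 (Λ.col y)
  rw [Λ.mk_col_pos, add_sub_cancel] at h4
  have h5 := Λ.move (Λ.col y') (Λ.pos y) (Λ.pos y')
  rw [Λ.mk_col_pos] at h5
  have h6 := mL.tri y (Λ.mk' (Λ.col y') (Λ.pos y)) y'
  have h7 := Nat.mul_le_mul_right (2 * n + 1)
    ((Finset.card_le_card fun s hs => (b2 s).2 (h3 s hs)).trans b1)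
  omega

theorem exists_box [Fintype A] (W V : Finset X) : ∃ B : Finset L,
    (∀ y, y ∈ B ↔ (Λ.col y).support ⊆ W ∧ Λ.pos y ∈ V) ∧
      B.card = Fintype.card A ^ W.card * V.card := by
  classical
  refine ⟨(W.finsupp (fun _ => Finset.univ) ×ˢ V).image fun q => Λ.mk' q.1 q.2, fun y => ?_, ?_⟩
  · simp only [Finset.mem_image, Finset.mem_product, Finset.mem_finsupp_iff]
    constructor
    · rintro ⟨q, ⟨h1, h2⟩, rfl⟩
      rw [Λ.col_mk, Λ.pos_mk]
      exact ⟨h1.1, h2⟩
    · rintro ⟨h1, h2⟩
      exact ⟨(Λ.col y, Λ.pos y), ⟨⟨h1, by simp⟩, h2⟩, Λ.mk_col_pos y⟩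
  · rw [Finset.card_image_of_injective _ fun q q' h => Prod.ext
      (by simpa [Λ.col_mk] using congrArg Λ.col h) (by simpa [Λ.pos_mk] using congrArg Λ.pos h)]
    simp [Finset.card_finsupp]

end IsLampA

theorem Tower.liftA {mH : NMetric H} {e : H} {m : NMetric Y} {o : Y} {F : ℕ → ℕ}
    (T : Tower mH e m o F) {A : Type} [AddCommGroup A] [Fintype A] {mL : NMetric L}
    (Λ : IsLampA A m mL) :
    Nonempty (Tower mH e mL (Λ.mk' 0 o) fun n => Fintype.card A ^ F n * F n) := by
  classical
  choose B hB hc using fun n => Λ.exists_box (T.T n) (T.T n)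
  have hsupp : ∀ y, ∀ z ∈ (Λ.col y).support, m.d o z ≤ mL.d (Λ.mk' 0 o) y := fun y z hz => by
    have := Λ.near_of_ne (Λ.mk' 0 o) y z (by simpa [Λ.col_mk] using hz)
    rwa [Λ.pos_mk] at this
  have hpos : ∀ y, m.d o (Λ.pos y) ≤ mL.d (Λ.mk' 0 o) y := fun y => by
    have := Λ.pos_lip (Λ.mk' 0 o) y
    rwa [Λ.pos_mk] at this
  have hp : ∀ z, mH.d e (T.p z) ≤ m.d o z := fun z => by
    have := T.p_lip o z
    rwa [T.p_o] at this
  let κ : ℕ → (Y →₀ A) → Y →₀ A := fun n c =>
    (mapDomain (T.π n) c).filter fun z => m.d o z ≤ n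
  have κadd : ∀ n c c', κ n (c + c') = κ n c + κ n c' := fun n c c' => by
    simp only [κ, mapDomain_add, filter_add]
  refine ⟨{ p := fun y => T.p (Λ.pos y)
            p_o := by rw [Λ.pos_mk, T.p_o]
            p_lip := fun x y => (T.p_lip _ _).trans (Λ.pos_lip x y)
            lf := fun y h => Λ.mk' (Λ.col y) (T.lf (Λ.pos y) h)
            lf_p := fun y => by rw [T.lf_p, Λ.mk_col_pos]
            lf_lip := fun y h h' => (Λ.move _ _ _).trans (T.lf_lip _ _ _)
            π := fun n y => Λ.mk' (κ n (Λ.col y)) (T.π n (Λ.pos y))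
            π_lip := ?_
            π_fix := ?_
            π_p := fun n y => by rw [Λ.pos_mk, T.π_p]
            π_lf := ?_
            Hull := fun n y => T.Hull n (Λ.pos y) ∧ (Λ.col y).support ⊆ T.T n
            hull_ball := ?_
            hull_near := ?_
            T := B
            mem_T := fun n y => by rw [hB, T.mem_T]; tauto
            card_T := fun n => (hc n).le.trans (Nat.mul_le_mul
              (Nat.pow_le_pow_right Fintype.card_pos (T.card_T n)) (T.card_T n)) }⟩
  · intro n x y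
    have := mL.lip mL (fun y => Λ.mk' (κ n (Λ.col y)) (T.π n (Λ.pos y))) 1 (fun x y h => by
      rcases Λ.adj x y h with h | ⟨h, a, ha⟩
      · rw [h.1]
        exact (Λ.move _ _ _).trans ((T.π_lip _ _ _).trans h.2)
      · rw [h, ha, κadd]
        by_cases hz : m.d o (T.π n (Λ.pos x)) ≤ n
        · have : κ n (single (Λ.pos x) a) = single (T.π n (Λ.pos x)) a := by
            simp only [κ, mapDomain_single]
            exact filter_single_of_pos _ hz
          rw [this]
          exact Λ.toggle _ _ _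
        · have : κ n (single (Λ.pos x) a) = 0 := by
            simp only [κ, mapDomain_single]
            exact filter_single_of_neg _ hz
          rw [this, add_zero, mL.refl]
          omega) x y
    omega
  · intro n y hy
    have h1 : mapDomain (T.π n) (Λ.col y) = Λ.col y := by
      rw [mapDomain_congr (g := id) fun z hz => T.π_fix n z ((hsupp y z hz).trans hy), mapDomain_id]
    have h2 : κ n (Λ.col y) = Λ.col y := by
      simp only [κ, h1]
      exact (filter_eq_self_iff _ _).2 fun z hz => (hsupp y z (by simpa using hz)).trans hy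
    rw [h2, T.π_fix n _ ((hpos y).trans hy), Λ.mk_col_pos]
  · intro n x y h
    have h1 := Λ.pos_lip x y
    have h2 : κ n (Λ.col y - Λ.col x) = 0 := by
      refine (filter_eq_zero_iff _ _).2 fun w hw => ?_
      by_contra hw'
      obtain ⟨z, hz, rfl⟩ := Finset.mem_image.1 (mapDomain_support (Finsupp.mem_support_iff.2 hw'))
      have a1 := Λ.near_of_ne x y z fun e' => by
        rw [Finsupp.mem_support_iff, Finsupp.sub_apply, e', sub_self] at hz
        exact hz rfl
      have a2 := hp (T.π n z)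
      rw [T.π_p] at a2
      have a3 := T.p_lip z (Λ.pos x)
      rw [m.symm z] at a3
      have a4 := mH.tri e (T.p z) (T.p (Λ.pos x))
      omega
    have h3 : κ n (Λ.col y) = κ n (Λ.col x) := by
      rw [← sub_add_cancel (Λ.col y) (Λ.col x), κadd, h2, zero_add]
    funext h'
    simp only [Λ.col_mk, Λ.pos_mk]
    rw [h3, T.π_lf n (Λ.pos x) (Λ.pos y) (by omega)]
  · intro n y hy
    refine ⟨T.hull_ball _ _ ((hpos y).trans hy), fun z hz => (T.mem_T _ _).2 ?_⟩
    have := (hsupp y z hz).trans hy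
    exact ⟨T.hull_ball _ _ this, (hp z).trans this⟩
  · intro n x y hx h
    have h1 := Λ.pos_lip x y
    refine ⟨T.hull_near _ _ _ hx.1 (by omega), fun z hz => ?_⟩
    by_cases e' : Λ.col y z = Λ.col x z
    · exact hx.2 (by rw [Finsupp.mem_support_iff] at hz ⊢; rwa [← e'])
    · have a1 := Λ.near_of_ne x y z e'
      have a2 := T.p_lip (Λ.pos x) z
      have a3 := mH.tri e (T.p (Λ.pos x)) (T.p z)
      exact (T.mem_T _ _).2 ⟨T.hull_near _ _ _ hx.1 (by omega), by omega⟩

theorem LowData.retract {m : NMetric X} {m' : NMetric Y} {o : X} {τ r R n₀ N : ℕ}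
    (D : LowData m o τ r R n₀ N) (i : X → Y) (ρ : Y → X) (hi : ∀ x y, m'.d (i x) (i y) ≤ m.d x y)
    (hρ : ∀ x y, m.d (ρ x) (ρ y) ≤ m'.d x y) (h : ∀ x, ρ (i x) = x) :
    Nonempty (LowData m' (i o) τ r R n₀ N) := by
  classical
  refine ⟨{ ι := D.ι
            a := fun j => i (D.a j)
            b := fun j => i (D.b j)
            cyc := D.cyc.map i
            step := fun j => (hi _ _).trans (D.step j)
            ball := fun j => ⟨(hi _ _).trans (D.ball j).1, (hi _ _).trans (D.ball j).2⟩
            det := ?_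
            κ := D.κ
            card := D.card
            u := fun y => D.u (ρ y)
            J := fun k => (D.J k).image i
            lab := fun k y hy => ?_
            low := fun k θ E hθ hE => ?_ }⟩
  · obtain ⟨φ, h1, h2⟩ := D.det
    exact ⟨fun y y' => φ (ρ y) (ρ y'), h1.comp ρ fun y y' e => (hρ y y').trans e,
      by simpa only [h] using h2⟩
  · obtain ⟨x, hx, rfl⟩ := Finset.mem_image.1 hy
    rw [h]
    exact D.lab k x hx
  · exact D.low k (fun x y => θ (i x) (i y)) (fun x => E (i x))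
      (hθ.comp i fun x y e => (hi x y).trans e) fun x hx y hy e =>
        hE _ (Finset.mem_image_of_mem i hx) _ (Finset.mem_image_of_mem i hy) ((hi x y).trans e)

theorem mapRange_add_single {A A' : Type} [AddCommGroup A] [AddCommGroup A'] (f : A → A')
    (hf : f 0 = 0) (c : X →₀ A) (x : X) (a : A) :
    mapRange f hf (c + single x a) = mapRange f hf c + single x (f (c x + a) - f (c x)) := by
  ext z
  by_cases hz : z = x
  · subst hz; simp
  · simp [single_eq_of_ne hz]

theorem LowData.toA {mX : NMetric X} {mL : NMetric L} {mL' : NMetric L'} (Λ : IsLamp mX mL)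
    {A : Type} [AddCommGroup A] [Nontrivial A] (Λ' : IsLampA A mX mL') {o : X} {τ r R n₀ N : ℕ}
    (D : LowData mL (Λ.mk' 0 o) τ r R n₀ N) : Nonempty (LowData mL' (Λ'.mk' 0 o) τ r R n₀ N) := by
  classical
  obtain ⟨a₀, ha₀⟩ := exists_ne (0 : A)
  let u : ZMod 2 → A := fun t => if t = 0 then 0 else a₀
  let v : A → ZMod 2 := fun a => if a = 0 then 0 else 1
  have u0 : u 0 = 0 := if_pos rfl
  have v0 : v 0 = 0 := if_pos rfl
  have vu : ∀ t, v (u t) = t := fun t => by
    by_cases ht : t = 0
    · simp [u, v, ht]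
    · simp [u, v, ha₀, z2_eq_one ht]
  have := D.retract (m' := mL') (fun y => Λ'.mk' (mapRange u u0 (Λ.col y)) (Λ.pos y))
    (fun y => Λ.mk' (mapRange v v0 (Λ'.col y)) (Λ'.pos y)) (fun x y => by
      have := mL.lip mL' (fun y => Λ'.mk' (mapRange u u0 (Λ.col y)) (Λ.pos y)) 1 (fun x y h => by
        rcases Λ.adj x y h with h | h
        · rw [h.1]
          exact (Λ'.move _ _ _).trans h.2
        · rw [h.1, h.2, mapRange_add_single]
          exact Λ'.toggle _ _ _) x y
      omega) (fun x y => by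
      have := mL'.lip mL (fun y => Λ.mk' (mapRange v v0 (Λ'.col y)) (Λ'.pos y)) 1 (fun x y h => by
        rcases Λ'.adj x y h with h | ⟨h, a, ha⟩
        · rw [h.1]
          exact (Λ.move _ _ _).trans h.2
        · rw [h, ha, mapRange_add_single]
          by_cases e : v (Λ'.col x (Λ'.pos x) + a) - v (Λ'.col x (Λ'.pos x)) = 0
          · rw [e, single_zero, add_zero, mL.refl]
            omega
          · rw [z2_eq_one e]
            exact Λ.toggle _ _) x y
      omega) (fun y => by
      rw [Λ'.col_mk, Λ'.pos_mk]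
      have : mapRange v v0 (mapRange u u0 (Λ.col y)) = Λ.col y := by
        ext z
        simp only [mapRange_apply, vu]
      rw [this, Λ.mk_col_pos])
  simpa only [Λ.col_mk, Λ.pos_mk, mapRange_zero] using this

end Pool.Agent.P.MP_c4d261_al
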