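import Pool.Agent.P.MP_c4d261_al.G.Grp

/-! The number of factors of an iterated wreath product is a quasi-isometry invariant. -/

set_option autoImplicit false

namespace Pool.Agent.P.MP_c4d261_al

section
variable {H : Type} [Group H] {S : Finset H} (hS : Subgroup.closure (S : Set H) = ⊤)
  (B : ℕ → Finset H) (hB : ∀ n x, x ∈ B n ↔ (wm S hS).d 1 x ≤ n)

theorem wm_inv (g x y : H) : (wm S hS).d (g * x) (g * y) = (wm S hS).d x y := by
  simp [wm_d, mul_assoc]

include hB

theorem ball_ge [Infinite H] (k : ℕ) : k + 1 ≤ (B k).card := by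
  obtain ⟨γ, g0, hγ⟩ := (wm_deg hS).geodesic 1 k
  rw [← Finset.card_range (k + 1)]
  refine Finset.card_le_card_of_injOn γ (fun i hi => ?_) fun i hi j hj e => ?_
  · have hi : i < k + 1 := by simpa using hi
    have := hγ 0 i (Nat.zero_le _) (by omega)
    rw [g0] at this
    exact (hB k _).2 (by omega)
  · have hi : i < k + 1 := by simpa using hi
    have hj : j < k + 1 := by simpa using hj
    rcases le_total i j with h' | h'
    · have := hγ i j h' (by omega)
      rw [e, NMetric.refl] at this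
      omega
    · have := hγ j i h' (by omega)
      rw [e, NMetric.refl] at this
      omega

theorem lin_of_ball (K : ℕ) (hK : ∀ n, (B n).card ≤ K * (n + 1)) : Lin (wm S hS) := by
  classical
  refine ⟨K, fun o n F hF => le_trans ?_ (hK n)⟩
  refine Finset.card_le_card_of_injOn (fun x => o⁻¹ * x) (fun x hx => (hB _ _).2 ?_)
    (mul_right_injective _).injOn
  rw [← wm_inv hS o, mul_one, mul_inv_cancel_left]
  exact hF x hx

theorem low_base [Infinite H] (ρ t R : ℕ) (hR : 2 * R < t * (2 * ρ + 1)) {L : Type}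
    {mL : NMetric L} (Λ : IsLamp (wm S hS) mL) :
    Nonempty (LowData mL (Λ.mk' 0 1) (2 * (3 * ρ + 1) + 1) (12 * ρ + 8) R
      (3 * (t * (2 * ρ + 1)) + 2) (tw 1 ((B ρ).card - 1))) := by
  classical
  obtain ⟨γ, g0, hγ⟩ := (wm_deg hS).geodesic 1 (t * (2 * ρ + 1))
  let P : ℕ → H := fun i => γ (i * (2 * ρ + 1))
  have hP : ∀ i j, i ≤ j → j ≤ t → (wm S hS).d (P i) (P j) = (j - i) * (2 * ρ + 1) := by
    intro i j h1 h2
    rw [Nat.sub_mul]
    exact hγ _ _ (Nat.mul_le_mul_right _ h1) (Nat.mul_le_mul_right _ h2)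
  have hP1 : ∀ i < t, (wm S hS).d (P i) (P (i + 1)) = 2 * ρ + 1 := fun i hi => by
    rw [hP i (i + 1) (by omega) hi]; simp
  have hsep : ∀ i ≤ t, ∀ j ≤ t, (wm S hS).d (P i) (P j) ≤ 2 * ρ → i = j := by
    intro i hi j hj h
    by_contra hne
    rcases lt_or_gt_of_ne hne with h' | h'
    · rw [hP i j h'.le hj] at h
      have := Nat.mul_le_mul_right (2 * ρ + 1) (show 1 ≤ j - i by omega)
      omega
    · rw [NMetric.symm, hP j i h'.le hi] at h
      have := Nat.mul_le_mul_right (2 * ρ + 1) (show 1 ≤ i - j by omega)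
      omega
  let reg : ℕ → ((B ρ).erase 1) → H := fun i s => P i * s
  have hreg : ∀ i s, (wm S hS).d (P i) (reg i s) ≤ ρ := fun i s => by
    simpa [wm_d, reg] using (hB ρ s).1 (Finset.mem_of_mem_erase s.2)
  have hne : ∀ i ≤ t, ∀ j ≤ t, ∀ s, reg i s ≠ P j := by
    intro i hi j hj s h
    have h1 := hreg i s
    rw [h] at h1
    obtain rfl := hsep i hi j hj (by omega)
    exact Finset.ne_of_mem_erase s.2 (by simpa [reg] using h)
  have := base_low Λ P reg t (3 * ρ + 1) (12 * ρ + 8) R (t * (2 * ρ + 1)) (by omega)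
    (fun i hi => by rw [hP1 i hi]; omega) (fun i _ s => by have := hreg i s; omega)
    (fun i hi s => by
      have a1 := hreg (i + 1) s
      have a2 := hP1 i hi
      have a3 := (wm S hS).tri (P i) (P (i + 1)) (reg (i + 1) s)
      omega)
    (fun i hi s => by
      have a1 := hreg i s
      have a2 := hP1 i hi
      have a3 := (wm S hS).tri (P (i + 1)) (P i) (reg i s)
      rw [NMetric.symm] at a2
      omega)
    (fun i hi j hj s s' h => by
      have a1 := hreg i s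
      have a2 := hreg j s'
      have a3 := (wm S hS).tri (P i) (reg i s) (P j)
      rw [← h, NMetric.symm] at a2
      obtain rfl := hsep i hi j hj (by omega)
      exact ⟨rfl, Subtype.ext (mul_left_cancel h)⟩)
    (fun i hi s => ⟨hne i hi 0 (Nat.zero_le _) s, hne i hi t le_rfl s⟩)
    (by rw [hP 0 t (Nat.zero_le _) le_rfl]; simpa using hR)
    (fun i hi => by
      rw [hP 0 i (Nat.zero_le _) hi]
      exact Nat.mul_le_mul_right _ (by omega))
  have e1 : P 0 = 1 := by simp [P, g0]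
  rw [e1, Fintype.card_coe, Finset.card_erase_of_mem ((hB ρ 1).2 (by simp [NMetric.refl]))] at this
  exact this

end

theorem not_two_pow_lin (K : ℕ) (hK : ∀ ρ, 2 ^ ρ ≤ K * (ρ + 1)) : False := by
  have c1 := hK (2 * K * 2)
  have c2 : 2 * K + 1 ≤ 2 ^ (2 * K) := Nat.lt_two_pow_self
  rw [pow_mul] at c1
  have c3 := Nat.pow_le_pow_left c2 2
  nlinarith

theorem length_le (H H' : GrpCat.{0}) [Infinite H] [Infinite H'] [Group.IsFinitelyPresented H]
    [Group.IsFinitelyPresented H'] (l l' : List GrpCat.{0})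
    (hl : ∀ F ∈ l, Finite F ∧ Nontrivial F) (hl' : ∀ F ∈ l', Finite F ∧ Nontrivial F)
    (h : ∀ (T : Finset (iterWr H l)) hT (T' : Finset (iterWr H' l')) hT',
      Coarse (wm T hT) (wm T' hT')) : l.length ≤ l'.length := by
  classical
  by_contra hlt
  obtain ⟨n, hn⟩ : ∃ n, l.length = n + 1 := ⟨l.length - 1, by omega⟩
  obtain ⟨S, hS, -⟩ := exact_of_fp H
  obtain ⟨S', hS', r₀, hex⟩ := exact_of_fp H'
  choose B hB1 hB using (wm_deg hS).ball 1
  choose B' hB1' hB' using (wm_deg hS').ball 1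
  obtain ⟨T, hT, I⟩ := iter_wr H hS l hl
  obtain ⟨T', hT', I'⟩ := iter_wr H' hS' l' hl'
  have hc := h T hT T' hT'
  obtain ⟨F, ⟨W⟩, -, hF⟩ := I'.tower B' hB'
  obtain ⟨f, g, L, β, hf, hg, hgf, ho, hβ⟩ := hc.data (wm_deg hT) 1 1
  obtain ⟨A, hA⟩ := hF β
  have hv := ball_ge hS B hB
  obtain ⟨c, hc'⟩ : ∃ c, ∀ ρ,
      L * (L * (12 * ρ + 8) + L + r₀) + L + (2 * (3 * ρ + 1) + 1) + 2 * L ≤ c * (ρ + 1) :=
    ⟨L * (L * 12 + L + r₀) + 3 * L + 6, fun ρ => by
      nlinarith [Nat.zero_le (L * L), Nat.zero_le (L * L * ρ), Nat.zero_le (L * r₀ * ρ),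
        Nat.zero_le (L * ρ)]⟩
  obtain ⟨C, hC⟩ : ∃ C, ∀ ρ, 2 ^ ((B ρ).card - 1) ≤ A * (B' (C * (ρ + 1))).card := by
    refine ⟨L * (6 * (2 * c + 1) + 2) + 2 * L + 39 * L, fun ρ => ?_⟩
    obtain ⟨D⟩ := (I.low (by omega) (low_base hS B hB ρ (2 * c + 1) (c * (ρ + 1))
      (by nlinarith [Nat.zero_le (c * ρ)]))).2 (by omega)
    have h1 := hc' ρ
    have := compare W D f g L β (L * (12 * ρ + 8) + L + r₀) hf hg hgf ho hβ (hex _ (by omega))
      (by omega) (by omega) (by omega) (by omega)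
    have h2 := this.trans (hA _)
    rw [hn, tw_succ] at h2
    refine ((tw_strictMono l'.length).le_iff_le.1 ((tw_mono_left _ (by omega)).trans h2)).trans
      (Nat.mul_le_mul_left _ (Finset.card_le_card fun x hx => (hB' _ _).2
        (((hB' _ _).1 hx).trans ?_)))
    nlinarith [Nat.zero_le (L * c), Nat.zero_le (L * ρ)]
  have b1 : ∀ ρ, (B ρ).card ≤ (A + 1 + (2 * S'.card + 1) * C) * (ρ + 1) := fun ρ => by
    have c1 : A * (B' (C * (ρ + 1))).card ≤ 2 ^ (A + (2 * S'.card + 1) * (C * (ρ + 1))) := by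
      rw [pow_add, pow_mul]
      exact Nat.mul_le_mul Nat.lt_two_pow_self.le ((hB1' _).trans
        (Nat.pow_le_pow_left Nat.lt_two_pow_self.le _))
    have c2 := (Nat.pow_le_pow_iff_right (by norm_num)).1 ((hC ρ).trans c1)
    have : (B ρ).card ≤ A + (2 * S'.card + 1) * (C * (ρ + 1)) + 1 := by omega
    nlinarith [Nat.zero_le (A * ρ)]
  have b2 : Lin (wm S' hS') := by
    rcases trichotomy (wm_inv hS') (wm_deg hS') with h1 | h1 | h1
    · obtain ⟨u, hu⟩ := I'.ce_up
      obtain ⟨v, hv⟩ := hc.symm.ce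
      obtain ⟨w, hw⟩ := I.ce_down h1 (r := r₀ + 1) (by omega) (hex _ (by omega)) ⟨_, hu.comp hv⟩
      exact (lin_of_ball hS B hB _ b1).of_ce hw (wm_deg hS')
    · exact h1
    · exact (Lin.not_iso 1 B hB hv _ b1 (I.iso_iff.2
        ((I'.iso_iff.1 h1).of_coarse hc (wm_deg hT) (wm_deg hT')))).elim
  obtain ⟨K, hK⟩ := b2
  refine not_two_pow_lin (A * (K * (C + 1))) fun ρ => ?_
  have c1 : 2 ^ ρ ≤ 2 ^ ((B ρ).card - 1) :=
    Nat.pow_le_pow_right (by norm_num) (by have := hv ρ; omega)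
  have c2 := hK 1 _ _ fun x => (hB' (C * (ρ + 1)) x).1
  calc 2 ^ ρ ≤ A * (K * (C * (ρ + 1) + 1)) := (c1.trans (hC ρ)).trans (Nat.mul_le_mul_left _ c2)
    _ ≤ A * (K * ((C + 1) * (ρ + 1))) :=
      Nat.mul_le_mul_left _ (Nat.mul_le_mul_left _ (by nlinarith))
    _ = _ := by ring

theorem length_eq (H H' : GrpCat.{0}) [Infinite H] [Infinite H'] [Group.IsFinitelyPresented H]
    [Group.IsFinitelyPresented H'] (l l' : List GrpCat.{0})
    (hl : ∀ F ∈ l, Finite F ∧ Nontrivial F) (hl' : ∀ F ∈ l', Finite F ∧ Nontrivial F)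
    (h : QuasiIsometric (iterWr H l) (iterWr H' l')) : l.length = l'.length :=
  le_antisymm (length_le H H' l l' hl hl' fun _ hT _ hT' => h.coarse hT hT')
    (length_le H' H l' l hl' hl fun _ hT _ hT' => (h.coarse hT' hT).symm)

end Pool.Agent.P.MP_c4d261_al
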